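import Pool.Agent.Run7.h382.LP.PSR

/-!
# Project LP (helper356), piece POSA (helper382): positivity by the maximum principle
-/

set_option autoImplicit false

noncomputable section

open MeasureTheory Filter Topology Set
open scoped BigOperators Matrix ENNReal

namespace Run7.h382.LP

open H356LP

/-! ### a form of the maximum principle -/

/-- If `Re f ≥ 0` on the boundary of a half disc then `Re f ≥ 0` inside.  The half disc is
`{‖z‖ < 1, 0 < u z}`, `u` a continuous function. -/
lemma re_nonneg_half {f : ℂ → ℂ} {u : ℂ → ℝ} (hu : Continuous u)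
    (hd : DifferentiableOn ℂ f (Metric.ball 0 1)) (hc : ContinuousOn f (Metric.closedBall 0 1))
    (h0 : ∀ z : ℂ, ‖z‖ ≤ 1 → u z = 0 → 0 ≤ (f z).re)
    (h1 : ∀ z : ℂ, ‖z‖ = 1 → 0 ≤ u z → 0 ≤ (f z).re) :
    ∀ z : ℂ, ‖z‖ ≤ 1 → 0 ≤ u z → 0 ≤ (f z).re := by
  set U : Set ℂ := {z | ‖z‖ < 1 ∧ 0 < u z} with hU
  have hUo : IsOpen U := (isOpen_lt continuous_norm continuous_const).inter
    (isOpen_lt continuous_const hu)
  have hUc : closure U ⊆ {z | ‖z‖ ≤ 1 ∧ 0 ≤ u z} := by
    apply closure_minimal
    · intro z hz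
      exact ⟨hz.1.le, hz.2.le⟩
    · exact (isClosed_le continuous_norm continuous_const).inter (isClosed_le continuous_const hu)
  have hUb : Bornology.IsBounded U := by
    refine Bornology.IsBounded.subset (Metric.isBounded_ball (x := (0 : ℂ)) (r := 1)) ?_
    intro z hz
    rw [Metric.mem_ball, dist_zero_right]
    exact hz.1
  have hdc : DiffContOnCl ℂ (fun z => Complex.exp (- f z)) U := by
    refine ⟨?_, ?_⟩
    · apply DifferentiableOn.cexp
      apply DifferentiableOn.neg
      apply hd.mono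
      intro z hz
      rw [Metric.mem_ball, dist_zero_right]
      exact hz.1
    · apply ContinuousOn.cexp
      apply ContinuousOn.neg
      apply hc.mono
      intro z hz
      rw [Metric.mem_closedBall, dist_zero_right]
      exact (hUc hz).1
  have hn : ∀ z : ℂ, ‖Complex.exp (- f z)‖ ≤ 1 ↔ 0 ≤ (f z).re := by
    intro z
    rw [Complex.norm_exp, Complex.neg_re, Real.exp_le_one_iff, neg_nonpos]
  intro z hz1 hz2
  by_cases hzU : z ∈ U
  · rw [← hn]
    apply Complex.norm_le_of_forall_mem_frontier_norm_le hUb hdc _ (subset_closure hzU)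
    intro w hw
    rw [hn]
    have hw1 := hUc (frontier_subset_closure hw)
    have hw2 : w ∉ U := by
      rw [hUo.frontier_eq] at hw
      exact hw.2
    rcases hw1.1.eq_or_lt with h | h
    · exact h1 w h hw1.2
    · apply h0 w hw1.1
      by_contra h3
      exact hw2 ⟨h, lt_of_le_of_ne hw1.2 (Ne.symm h3)⟩
  · rcases hz1.eq_or_lt with h | h
    · exact h1 z h hz2
    · apply h0 z hz1
      by_contra h3
      exact hzU ⟨h, lt_of_le_of_ne hz2 (Ne.symm h3)⟩

/-! ### the signed power -/

lemma sp_zero {r : ℝ} : sp r 0 = 0 := by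
  unfold sp
  rw [Real.sign_zero, zero_mul]

lemma sp_pos {r x : ℝ} (hx : 0 < x) : 0 < sp r x := by
  unfold sp
  rw [Real.sign_of_pos hx, one_mul]
  exact Real.rpow_pos_of_pos (abs_pos.2 hx.ne') _

lemma sp_nonneg {r x : ℝ} (hx : 0 ≤ x) : 0 ≤ sp r x := by
  rcases hx.eq_or_lt with h | h
  · rw [← h, sp_zero]
  · exact (sp_pos h).le

lemma sp_neg (r x : ℝ) : sp r (-x) = - sp r x := by
  unfold sp
  rw [Real.sign_neg, abs_neg, neg_mul]

lemma sp_mono {r : ℝ} (hr : 0 ≤ r) : Monotone (sp r) := by
  intro x y hxy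
  rcases le_or_gt 0 x with hx | hx
  · rcases hx.eq_or_lt with h | h
    · rw [← h, sp_zero]
      exact sp_nonneg (h ▸ hxy)
    · have hy : 0 < y := h.trans_le hxy
      unfold sp
      rw [Real.sign_of_pos h, Real.sign_of_pos hy, one_mul, one_mul, abs_of_pos h, abs_of_pos hy]
      exact Real.rpow_le_rpow h.le hxy hr
  · rcases le_or_gt 0 y with hy | hy
    · have h1 : 0 ≤ sp r (-x) := sp_nonneg (by linarith)
      rw [sp_neg] at h1
      linarith [sp_nonneg (r := r) hy]
    · unfold sp
      rw [Real.sign_of_neg hx, Real.sign_of_neg hy, abs_of_neg hx, abs_of_neg hy]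
      have h1 := Real.rpow_le_rpow (by linarith : 0 ≤ -y) (by linarith : -y ≤ -x) hr
      linarith

/-! ### monotonicity of `S` -/

section trig

variable {p q : ℝ} (T : Trig p q)

lemma S_refl (x : ℝ) : T.S (Real.pi - x) = T.S x := by
  have h1 := T.Spi (-x)
  rw [T.odd, neg_neg] at h1
  rw [← h1]
  congr 1
  ring

lemma c_refl (x : ℝ) : T.c (Real.pi - x) = - T.c x := by
  have h1 := T.cpi (-x)
  rw [T.even] at h1
  rw [← h1]
  congr 1
  ring

lemma S_zero : T.S 0 = 0 := by
  have h1 := T.odd 0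
  rw [neg_zero] at h1
  exact self_eq_neg.1 h1

lemma S_pi : T.S Real.pi = 0 := by
  have h1 := S_refl T 0
  rwa [sub_zero, S_zero] at h1

lemma S_mono : MonotoneOn T.S (Icc (-(Real.pi / 2)) (Real.pi / 2)) := by
  apply monotoneOn_of_deriv_nonneg (convex_Icc _ _)
  · exact fun x _ => (T.dS x).continuousAt.continuousWithinAt
  · exact fun x _ => (T.dS x).differentiableAt.differentiableWithinAt
  · intro x hx
    rw [interior_Icc] at hx
    rw [(T.dS x).deriv]
    apply mul_nonneg T.k_pos.le
    exact (sp_pos (T.cpos x (abs_lt.2 hx))).le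

/-- `S (φ - δ) ≤ S (φ + δ)` for `|φ| ≤ π/2`. -/
lemma S_step {φ δ : ℝ} (hφ : |φ| ≤ Real.pi / 2) (h0 : 0 ≤ δ) (h1 : δ ≤ Real.pi / 2) :
    T.S (φ - δ) ≤ T.S (φ + δ) := by
  obtain ⟨ha, hb⟩ := abs_le.1 hφ
  have hx : ∃ x', T.S (φ + δ) = T.S x' ∧ x' ∈ Icc (-(Real.pi / 2)) (Real.pi / 2) ∧
      ((φ + δ ≤ Real.pi / 2 ∧ x' = φ + δ) ∨ (Real.pi / 2 < φ + δ ∧ x' = Real.pi - (φ + δ))) := by
    rcases le_or_gt (φ + δ) (Real.pi / 2) with h | h
    · exact ⟨_, rfl, ⟨by linarith, h⟩, Or.inl ⟨h, rfl⟩⟩
    · exact ⟨_, (S_refl T _).symm, ⟨by linarith, by linarith⟩, Or.inr ⟨h, rfl⟩⟩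
  have hy : ∃ y', T.S (φ - δ) = T.S y' ∧ y' ∈ Icc (-(Real.pi / 2)) (Real.pi / 2) ∧
      ((-(Real.pi / 2) ≤ φ - δ ∧ y' = φ - δ) ∨ (φ - δ < -(Real.pi / 2) ∧ y' = -Real.pi - (φ - δ))) := by
    rcases le_or_gt (-(Real.pi / 2)) (φ - δ) with h | h
    · exact ⟨_, rfl, ⟨h, by linarith⟩, Or.inl ⟨h, rfl⟩⟩
    · refine ⟨-Real.pi - (φ - δ), ?_, ⟨by linarith, by linarith⟩, Or.inr ⟨h, rfl⟩⟩
      have h2 : -Real.pi - (φ - δ) = -(φ - δ + Real.pi) := by ring
      rw [h2, T.odd, T.Spi, neg_neg]
  obtain ⟨x', hx1, hx2, hx3⟩ := hx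
  obtain ⟨y', hy1, hy2, hy3⟩ := hy
  rw [hx1, hy1]
  apply S_mono T hy2 hx2
  rcases hx3 with ⟨h2, h3⟩ | ⟨h2, h3⟩ <;> rcases hy3 with ⟨h4, h5⟩ | ⟨h4, h5⟩ <;> rw [h3, h5] <;> linarith

end trig

theorem POSA (hP : S_PSR) : S_POSA := by
  intro p q hp1 hp2 hpq T a hs1 hev hc
  obtain ⟨P1, P2, P3, P4, P5, P6, P7, P8, P9, P10, P11, P12, P13, P14⟩ := hP a hs1 hev
  have hq1 : 0 ≤ q - 1 := by
    have := hpq.symm.lt
    linarith
  -- the values at the boundary
  have hre : ∀ φ, (hs a (ee φ)).re = T.c φ := fun φ => (P14 φ).unique (hc φ)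
  have him : ∀ φ, (g1 a (ee φ)).im = T.k * sp (q - 1) (T.S φ) := by
    intro φ
    have h1 := P13 φ
    have h2 : HasDerivAt (fun φ : ℝ => (hs a (ee φ)).re) (Complex.I * ee φ * hd1 a (ee φ)).re φ :=
      Complex.reCLM.hasFDerivAt.comp_hasDerivAt φ h1
    have h3 : (fun φ : ℝ => (hs a (ee φ)).re) = T.c := funext hre
    rw [h3] at h2
    have h4 := h2.unique (T.dc φ)
    have h5 : Complex.I * ee φ * hd1 a (ee φ) = Complex.I * g1 a (ee φ) := by
      rw [P6, mul_assoc]
    rw [h5, Complex.I_mul_re] at h4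
    linarith
  have hconj : ∀ z, g1 a (starRingEnd ℂ z) = starRingEnd ℂ (g1 a z) := by
    intro z
    rw [P6, P6, P10, map_mul]
  have hodd : ∀ z, g1 a (-z) = - g1 a z := by
    intro z
    rw [P6, P6, P8, neg_mul]
  have gcont : ContinuousOn (g1 a) (Metric.closedBall 0 1) := by
    have h1 : g1 a = fun z => z * hd1 a z := funext P6
    rw [h1]
    exact continuousOn_id.mul P2
  have gdiff : DifferentiableOn ℂ (g1 a) (Metric.ball 0 1) := by
    intro z hz
    rw [Metric.mem_ball, dist_zero_right] at hz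
    exact (P4 z hz).differentiableAt.differentiableWithinAt
  have hreal : ∀ z : ℂ, z.im = 0 → (g1 a z).im = 0 := by
    intro z hz
    have h1 : starRingEnd ℂ z = z := Complex.conj_eq_iff_im.2 hz
    have h2 := hconj z
    rw [h1] at h2
    exact Complex.conj_eq_iff_im.1 h2.symm
  have harg : ∀ z : ℂ, ‖z‖ = 1 → z = ee (Complex.arg z) := by
    intro z hz
    have h1 := Complex.norm_mul_exp_arg_mul_I z
    rw [hz, Complex.ofReal_one, one_mul] at h1
    exact h1.symm
  have hpos3 : ∀ φ : ℝ, 0 < φ → φ < Real.pi → 0 < (g1 a (ee φ)).im := by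
    intro φ h0 h1
    rw [him]
    exact mul_pos T.k_pos (sp_pos (T.Spos φ h0 h1))
  refine ⟨?_, ?_, hpos3⟩
  · -- first claim
    have hI : ∀ z : ℂ, (-(Complex.I * g1 a z)).re = (g1 a z).im := by
      intro z
      rw [Complex.neg_re, Complex.I_mul_re, neg_neg]
    have key := re_nonneg_half (f := fun z => -(Complex.I * g1 a z)) (u := Complex.im) Complex.continuous_im
      ((gdiff.const_mul Complex.I).neg) ((continuousOn_const.mul gcont).neg)
      (fun z _ hz => by
        rw [hI, hreal z hz])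
      (fun z hz hz2 => by
        rw [hI]
        rw [harg z hz]
        have h3 : 0 ≤ Complex.arg z := Complex.arg_nonneg_iff.2 hz2
        have h4 : Complex.arg z ≤ Real.pi := Complex.arg_le_pi z
        rcases h3.eq_or_lt with h | h
        · rw [him, ← h, S_zero, sp_zero, mul_zero]
        · rcases h4.eq_or_lt with h5 | h5
          · rw [him, h5, S_pi, sp_zero, mul_zero]
          · exact (hpos3 _ h h5).le)
    intro z hz1 hz2
    have := key z hz1 hz2
    rwa [hI] at this
  · -- second claim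
    intro z hz hz2
    -- the difference quotient
    have hG : ∀ δ : ℝ, 0 < δ → δ ≤ Real.pi / 2 →
        0 ≤ ((g1 a (z * ee δ) - g1 a (z * ee (-δ))) / (2 * Complex.I * δ)).re := by
      intro δ h0 h1
      have hδ : (δ : ℂ) ≠ 0 := Complex.ofReal_ne_zero.2 h0.ne'
      have hdiv : ∀ w : ℂ, (w / (2 * Complex.I * δ)).re = w.im / (2 * δ) := by
        intro w
        have h3 : w / (2 * Complex.I * δ) = ((-(Complex.I * w)) / ((2 * δ : ℝ) : ℂ)) := by
          push_cast
          rw [div_eq_div_iff (mul_ne_zero (mul_ne_zero two_ne_zero Complex.I_ne_zero) hδ)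
            (mul_ne_zero two_ne_zero hδ)]
          linear_combination (2 * w * δ) * Complex.I_mul_I
        rw [h3, Complex.div_ofReal_re, Complex.neg_re, Complex.I_mul_re, neg_neg]
      have hmn : ∀ (w : ℂ) (x : ℝ), ‖w * ee x‖ = ‖w‖ := fun w x => by
        rw [norm_mul, ee_norm, mul_one]
      have hmc : ∀ x : ℝ, ContinuousOn (fun w : ℂ => g1 a (w * ee x)) (Metric.closedBall 0 1) := by
        intro x
        apply gcont.comp (continuousOn_id.mul continuousOn_const)
        intro w hw
        rw [Metric.mem_closedBall, dist_zero_right] at hw ⊢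
        show ‖w * ee x‖ ≤ 1
        rwa [hmn]
      have hmd : ∀ x : ℝ, DifferentiableOn ℂ (fun w : ℂ => g1 a (w * ee x)) (Metric.ball 0 1) := by
        intro x
        apply gdiff.comp (differentiableOn_id.mul (differentiableOn_const _))
        intro w hw
        rw [Metric.mem_ball, dist_zero_right] at hw ⊢
        show ‖w * ee x‖ < 1
        rwa [hmn]
      have key := re_nonneg_half
        (f := fun w => (g1 a (w * ee δ) - g1 a (w * ee (-δ))) / (2 * Complex.I * δ)) (u := Complex.re)
        Complex.continuous_re (((hmd δ).sub (hmd (-δ))).div_const _)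
        (((hmc δ).sub (hmc (-δ))).div_const _)
        (fun w _ hw => by
          show 0 ≤ ((g1 a (w * ee δ) - g1 a (w * ee (-δ))) / (2 * Complex.I * δ)).re
          rw [hdiv]
          have h3 : w * ee (-δ) = - starRingEnd ℂ (w * ee δ) := by
            rw [map_mul]
            have h4 : starRingEnd ℂ (ee δ) = ee (-δ) := by
              unfold ee
              rw [← Complex.exp_conj, map_mul, Complex.conj_ofReal, Complex.conj_I, Complex.ofReal_neg]
              congr 1
              ring
            have h5 : starRingEnd ℂ w = -w := by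
              apply Complex.ext
              · rw [Complex.conj_re, Complex.neg_re, hw, neg_zero]
              · rw [Complex.conj_im, Complex.neg_im]
            rw [h4, h5]
            ring
          rw [h3, hodd, hconj, sub_neg_eq_add, Complex.add_im, Complex.conj_im, add_neg_cancel, zero_div])
        (fun w hw hw2 => by
          show 0 ≤ ((g1 a (w * ee δ) - g1 a (w * ee (-δ))) / (2 * Complex.I * δ)).re
          rw [hdiv]
          obtain ⟨φ, hφ⟩ : ∃ φ, φ = Complex.arg w := ⟨_, rfl⟩
          have hw3 : w = ee φ := by rw [hφ]; exact harg w hw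
          have hφ2 : |φ| ≤ Real.pi / 2 := by
            rw [hφ]
            exact Complex.abs_arg_le_pi_div_two_iff.2 hw2
          have hee : ∀ x y : ℝ, ee x * ee y = ee (x + y) := by
            intro x y
            unfold ee
            rw [← Complex.exp_add]
            congr 1
            push_cast
            ring
          apply div_nonneg _ (by positivity)
          rw [hw3, hee, hee, Complex.sub_im, him, him, ← sub_eq_add_neg]
          have h3 := sp_mono hq1 (S_step T hφ2 h0.le h1)
          have h4 := mul_le_mul_of_nonneg_left h3 T.k_pos.le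
          linarith)
      exact key z hz.le hz2
    -- the limit
    have hlim : Tendsto (fun δ : ℝ => (g1 a (z * ee δ) - g1 a (z * ee (-δ))) / (2 * Complex.I * δ))
        (𝓝[>] 0) (𝓝 (z * g2 a z)) := by
      have h1 : HasDerivAt (fun δ : ℝ => g1 a (z * ee δ)) (Complex.I * z * g2 a z) 0 := by
        have h2 : HasDerivAt (fun δ : ℝ => z * ee δ) (z * (Complex.I * ee 0)) 0 :=
          (ee_deriv 0).const_mul z
        have he0 : ee 0 = 1 := by
          unfold ee
          simp
        have h3 : HasDerivAt (g1 a) (g2 a z) (z * ee 0) := by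
          rw [he0, mul_one]
          exact P4 z hz
        have h4 := h3.scomp (0 : ℝ) h2
        rw [he0, mul_one] at h4
        have h5 : (z * Complex.I) • g2 a z = Complex.I * z * g2 a z := by
          rw [smul_eq_mul]
          ring
        rw [h5] at h4
        exact h4
      have h1' : HasDerivAt (fun δ : ℝ => g1 a (z * ee (-δ))) (-(Complex.I * z * g2 a z)) 0 := by
        have h2 : HasDerivAt (fun δ : ℝ => -δ) (-1) 0 := (hasDerivAt_id (0 : ℝ)).neg
        have h3 : HasDerivAt (fun δ : ℝ => g1 a (z * ee δ)) (Complex.I * z * g2 a z) (-(0 : ℝ)) := by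
          rw [neg_zero]
          exact h1
        have h4 := h3.scomp (0 : ℝ) h2
        rw [neg_one_smul] at h4
        exact h4
      have h2 := (h1.sub h1')
      rw [sub_neg_eq_add, hasDerivAt_iff_tendsto_slope] at h2
      have h3 : Tendsto (slope (fun δ : ℝ => g1 a (z * ee δ) - g1 a (z * ee (-δ))) 0) (𝓝[>] 0)
          (𝓝 (Complex.I * z * g2 a z + Complex.I * z * g2 a z)) :=
        h2.mono_left (nhdsWithin_mono _ fun x hx => ne_of_gt hx)
      have h4 := h3.div_const (2 * Complex.I)
      have h5 : (Complex.I * z * g2 a z + Complex.I * z * g2 a z) / (2 * Complex.I) = z * g2 a z := by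
        field_simp
        ring
      rw [h5] at h4
      refine h4.congr' ?_
      filter_upwards [self_mem_nhdsWithin] with δ hδ
      have hδ0 : (δ : ℂ) ≠ 0 := Complex.ofReal_ne_zero.2 (ne_of_gt hδ)
      rw [slope_def_module]
      simp only [neg_zero, sub_self, sub_zero]
      rw [Complex.real_smul, Complex.ofReal_inv]
      field_simp
    have h1 := (Complex.continuous_re.tendsto _).comp hlim
    refine ge_of_tendsto h1 ?_
    have h2 : Ioc (0 : ℝ) (Real.pi / 2) ∈ 𝓝[>] (0 : ℝ) := Ioc_mem_nhdsGT (by positivity)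
    filter_upwards [h2] with δ hδ
    exact hG δ hδ.1 hδ.2

end Run7.h382.LP
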