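import Pool.Agent.Run7.h356.LP.Stm

/-!
# Project LP (helper356), piece PSR (helper382): regularity of the power series
-/

set_option autoImplicit false

noncomputable section

open MeasureTheory Filter Topology Set
open scoped BigOperators Matrix ENNReal

namespace Run7.h382.LP

open H356LP

lemma ee_norm (φ : ℝ) : ‖ee φ‖ = 1 := by
  unfold ee
  rw [Complex.norm_exp_ofReal_mul_I]

lemma ee_deriv (φ : ℝ) : HasDerivAt ee (Complex.I * ee φ) φ := by
  have h1 : HasDerivAt (fun x : ℝ => ((x : ℂ) * Complex.I)) Complex.I φ := by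
    have := (Complex.ofRealCLM.hasDerivAt (x := φ)).mul_const Complex.I
    simpa using this
  have h2 := h1.cexp
  unfold ee
  rw [mul_comm Complex.I]
  exact h2

lemma ee_pow (φ : ℝ) (n : ℕ) : ee φ ^ n = ee (n * φ) := by
  unfold ee
  rw [← Complex.exp_nat_mul]
  congr 1
  push_cast
  ring

lemma ee_re (φ : ℝ) : (ee φ).re = Real.cos φ := by
  unfold ee
  rw [Complex.exp_ofReal_mul_I_re]

lemma ee_im (φ : ℝ) : (ee φ).im = Real.sin φ := by
  unfold ee
  rw [Complex.exp_ofReal_mul_I_im]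

/-- the elementary bound `n r^(n-1) ≤ 1/(1-r)` -/
lemma nr_le {r : ℝ} (h0 : 0 ≤ r) (h1 : r < 1) (n : ℕ) : (n : ℝ) * r ^ (n - 1) ≤ 1 / (1 - r) := by
  have h2 : (n : ℝ) * r ^ (n - 1) ≤ ∑ i ∈ Finset.range n, r ^ i := by
    have h3 : (n : ℝ) * r ^ (n - 1) = ∑ i ∈ Finset.range n, r ^ (n - 1) := by
      rw [Finset.sum_const, Finset.card_range, nsmul_eq_mul]
    rw [h3]
    apply Finset.sum_le_sum
    intro i hi
    rw [Finset.mem_range] at hi
    exact pow_le_pow_of_le_one h0 h1.le (by omega)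
  refine h2.trans ?_
  have h4 : ∑ i ∈ Finset.range n, r ^ i = (1 - r ^ n) / (1 - r) := by
    rw [geom_sum_eq h1.ne, ← neg_div_neg_eq, neg_sub, neg_sub]
  rw [h4]
  apply div_le_div_of_nonneg_right _ (by linarith)
  linarith [pow_nonneg h0 n]

theorem PSR : S_PSR := by
  intro a hs1 hev
  have ha0 : a 0 = 0 := hev 0 Even.zero
  have hle : ∀ n : ℕ, |a n| ≤ n * |a n| := by
    intro n
    rcases Nat.eq_zero_or_pos n with h | h
    · subst h
      simp [ha0]
    · have : (1 : ℝ) ≤ n := by exact_mod_cast h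
      nlinarith [abs_nonneg (a n)]
  have hs0 : Summable (fun n : ℕ => |a n|) := Summable.of_nonneg_of_le (fun n => abs_nonneg _) hle hs1
  have hn1 : ∀ n : ℕ, ‖((n * a n : ℝ) : ℂ)‖ = n * |a n| := by
    intro n
    rw [Complex.norm_real, Real.norm_eq_abs, abs_mul, Nat.abs_cast]
  have hn0 : ∀ n : ℕ, ‖((a n : ℝ) : ℂ)‖ = |a n| := by
    intro n
    rw [Complex.norm_real, Real.norm_eq_abs]
  have hcl : ∀ z : ℂ, z ∈ Metric.closedBall (0 : ℂ) 1 → ‖z‖ ≤ 1 := fun z hz => by
    rwa [Metric.mem_closedBall, dist_zero_right] at hz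
  have hb0 : ∀ (n : ℕ) (z : ℂ), ‖z‖ ≤ 1 → ‖((a n : ℝ) : ℂ) * z ^ n‖ ≤ |a n| := by
    intro n z hz
    rw [norm_mul, hn0, norm_pow]
    exact mul_le_of_le_one_right (abs_nonneg _) (pow_le_one₀ (norm_nonneg _) hz)
  have hb1 : ∀ (n m : ℕ) (z : ℂ), ‖z‖ ≤ 1 → ‖((n * a n : ℝ) : ℂ) * z ^ m‖ ≤ n * |a n| := by
    intro n m z hz
    rw [norm_mul, hn1, norm_pow]
    exact mul_le_of_le_one_right (by positivity) (pow_le_one₀ (norm_nonneg _) hz)
  have hsum0 : ∀ z : ℂ, ‖z‖ ≤ 1 → Summable (fun n : ℕ => ((a n : ℝ) : ℂ) * z ^ n) := fun z hz =>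
    Summable.of_norm_bounded hs0 fun n => hb0 n z hz
  -- derivative of the terms
  have hterm : ∀ (c : ℂ) (n : ℕ) (z : ℂ), HasDerivAt (fun z : ℂ => c * z ^ n) (c * (n * z ^ (n - 1))) z := by
    intro c n z
    exact (hasDerivAt_pow n z).const_mul c
  have hball : ∀ r : ℝ, IsPreconnected (Metric.ball (0 : ℂ) r) := fun r =>
    (convex_ball (0 : ℂ) r).isPreconnected
  have hodd : ∀ z : ℂ, hs a (-z) = - hs a z := by
    intro z
    unfold hs
    rw [← tsum_neg]
    refine tsum_congr fun n => ?_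
    rcases Nat.even_or_odd n with h | h
    · rw [hev n h]
      simp
    · rw [h.neg_pow, mul_neg]
  have hevd : ∀ z : ℂ, hd1 a (-z) = hd1 a z := by
    intro z
    unfold hd1
    refine tsum_congr fun n => ?_
    rcases Nat.even_or_odd n with h | h
    · rw [hev n h]
      simp
    · have h2 : Even (n - 1) := by
        obtain ⟨k, hk⟩ := h
        exact ⟨k, by omega⟩
      rw [h2.neg_pow]
  refine ⟨?_, ?_, ?_, ?_, ?_, ?_, hodd, hevd, ?_, ?_, ?_, ?_, ?_, ?_⟩
  · exact continuousOn_tsum (fun n => (continuous_const.mul (continuous_pow n)).continuousOn) hs0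
      fun n z hz => hb0 n z (hcl z hz)
  · exact continuousOn_tsum (fun n => (continuous_const.mul (continuous_pow (n - 1))).continuousOn) hs1
      fun n z hz => hb1 n (n - 1) z (hcl z hz)
  · intro z hz
    refine hasDerivAt_tsum_of_isPreconnected (g := fun (n : ℕ) (z : ℂ) => ((a n : ℝ) : ℂ) * z ^ n)
      (g' := fun (n : ℕ) (z : ℂ) => ((n * a n : ℝ) : ℂ) * z ^ (n - 1)) hs1
      (Metric.isOpen_ball (x := (0 : ℂ)) (ε := 1)) (hball 1) ?_ ?_ (y₀ := 0) ?_ ?_ ?_
    · intro n y _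
      have h1 := hterm ((a n : ℝ) : ℂ) n y
      have h2 : ((a n : ℝ) : ℂ) * ((n : ℂ) * y ^ (n - 1)) = ((n * a n : ℝ) : ℂ) * y ^ (n - 1) := by
        push_cast
        ring
      rwa [h2] at h1
    · intro n y hy
      exact hb1 n (n - 1) y (hcl y (Metric.ball_subset_closedBall hy))
    · exact Metric.mem_ball_self one_pos
    · exact hsum0 0 (by simp)
    · rwa [Metric.mem_ball, dist_zero_right]
  · intro z hz
    obtain ⟨r, hr1, hr2⟩ := exists_between hz
    have hr0 : 0 ≤ r := (norm_nonneg z).trans hr1.le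
    refine hasDerivAt_tsum_of_isPreconnected (g := fun (n : ℕ) (z : ℂ) => ((n * a n : ℝ) : ℂ) * z ^ n)
      (g' := fun (n : ℕ) (z : ℂ) => ((n ^ 2 * a n : ℝ) : ℂ) * z ^ (n - 1)) (hs1.mul_right (1 / (1 - r)))
      (Metric.isOpen_ball (x := (0 : ℂ)) (ε := r)) (hball r) ?_ ?_ (y₀ := 0) ?_ ?_ ?_
    · intro n y _
      have h1 := hterm ((n * a n : ℝ) : ℂ) n y
      have h2 : ((n * a n : ℝ) : ℂ) * ((n : ℂ) * y ^ (n - 1)) = ((n ^ 2 * a n : ℝ) : ℂ) * y ^ (n - 1) := by
        push_cast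
        ring
      rwa [h2] at h1
    · intro n y hy
      rw [Metric.mem_ball, dist_zero_right] at hy
      have h3 : ‖((n ^ 2 * a n : ℝ) : ℂ) * y ^ (n - 1)‖ = (n * |a n|) * (n * ‖y‖ ^ (n - 1)) := by
        rw [norm_mul, Complex.norm_real, Real.norm_eq_abs, abs_mul, norm_pow, abs_pow, Nat.abs_cast]
        ring
      show ‖((n ^ 2 * a n : ℝ) : ℂ) * y ^ (n - 1)‖ ≤ _
      rw [h3]
      apply mul_le_mul_of_nonneg_left _ (by positivity)
      refine le_trans ?_ (nr_le hr0 hr2 n)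
      apply mul_le_mul_of_nonneg_left _ (Nat.cast_nonneg n)
      exact pow_le_pow_left₀ (norm_nonneg _) hy.le _
    · exact Metric.mem_ball_self (lt_of_le_of_lt (norm_nonneg z) hr1)
    · exact Summable.of_norm_bounded hs1 fun n => hb1 n n 0 (by simp)
    · rwa [Metric.mem_ball, dist_zero_right]
  · intro z hz
    rw [Metric.mem_ball, dist_zero_right] at hz
    obtain ⟨r, hr1, hr2⟩ := exists_between hz
    have hr0 : 0 ≤ r := (norm_nonneg z).trans hr1.le
    refine (HasDerivAt.differentiableAt (hasDerivAt_tsum_of_isPreconnected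
      (g := fun (n : ℕ) (z : ℂ) => ((n * a n : ℝ) : ℂ) * z ^ (n - 1))
      (g' := fun (n : ℕ) (z : ℂ) => ((n * a n : ℝ) : ℂ) * (((n - 1 : ℕ) : ℂ) * z ^ (n - 1 - 1)))
      (hs1.mul_right (1 / (1 - r)))
      (Metric.isOpen_ball (x := (0 : ℂ)) (ε := r)) (hball r) ?_ ?_ (y₀ := 0) ?_ ?_ ?_)).differentiableWithinAt
    · intro n y _
      exact hterm _ _ _
    · intro n y hy
      rw [Metric.mem_ball, dist_zero_right] at hy
      have h3 : ‖((n * a n : ℝ) : ℂ) * (((n - 1 : ℕ) : ℂ) * y ^ (n - 1 - 1))‖ =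
          (n * |a n|) * (((n - 1 : ℕ) : ℝ) * ‖y‖ ^ (n - 1 - 1)) := by
        rw [norm_mul, hn1, norm_mul, norm_pow, Complex.norm_natCast]
      show ‖((n * a n : ℝ) : ℂ) * (((n - 1 : ℕ) : ℂ) * y ^ (n - 1 - 1))‖ ≤ _
      rw [h3]
      apply mul_le_mul_of_nonneg_left _ (by positivity)
      refine le_trans ?_ (nr_le hr0 hr2 (n - 1))
      apply mul_le_mul_of_nonneg_left _ (Nat.cast_nonneg _)
      exact pow_le_pow_left₀ (norm_nonneg _) hy.le _
    · exact Metric.mem_ball_self (lt_of_le_of_lt (norm_nonneg z) hr1)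
    · exact Summable.of_norm_bounded hs1 fun n => hb1 n (n - 1) 0 (by simp)
    · rwa [Metric.mem_ball, dist_zero_right]
  · intro z
    unfold g1 hd1
    rw [← tsum_mul_left]
    refine tsum_congr fun n => ?_
    rcases Nat.eq_zero_or_pos n with h | h
    · subst h
      simp
    · obtain ⟨m, rfl⟩ := Nat.exists_eq_succ_of_ne_zero h.ne'
      rw [Nat.succ_sub_one, pow_succ]
      ring
  · intro z
    unfold hs
    rw [Complex.conj_tsum]
    refine tsum_congr fun n => ?_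
    rw [map_mul, map_pow, Complex.conj_ofReal]
  · intro z
    unfold hd1
    rw [Complex.conj_tsum]
    refine tsum_congr fun n => ?_
    rw [map_mul, map_pow, Complex.conj_ofReal]
  · have h1 := hodd 0
    rw [neg_zero] at h1
    exact self_eq_neg.1 h1
  · unfold hd1
    rw [tsum_eq_single 1]
    · simp
    · intro n hn
      rcases Nat.eq_zero_or_pos n with h | h
      · subst h
        simp
      · rw [zero_pow (by omega), mul_zero]
  · intro φ
    have h1 : HasDerivAt (fun φ : ℝ => ∑' n : ℕ, ((a n : ℝ) : ℂ) * ee φ ^ n)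
        (∑' n : ℕ, Complex.I * ee φ * (((n * a n : ℝ) : ℂ) * ee φ ^ (n - 1))) φ := by
      refine hasDerivAt_tsum (g := fun (n : ℕ) (φ : ℝ) => ((a n : ℝ) : ℂ) * ee φ ^ n)
        (g' := fun (n : ℕ) (φ : ℝ) => Complex.I * ee φ * (((n * a n : ℝ) : ℂ) * ee φ ^ (n - 1))) hs1 ?_ ?_
        (y₀ := 0) ?_ φ
      · intro n y
        have h2 := ((ee_deriv y).pow n).const_mul ((a n : ℝ) : ℂ)
        have h3 : ((a n : ℝ) : ℂ) * ((n : ℂ) * ee y ^ (n - 1) * (Complex.I * ee y)) =
            Complex.I * ee y * (((n * a n : ℝ) : ℂ) * ee y ^ (n - 1)) := by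
          push_cast
          ring
        rwa [h3] at h2
      · intro n y
        show ‖Complex.I * ee y * (((n * a n : ℝ) : ℂ) * ee y ^ (n - 1))‖ ≤ _
        rw [norm_mul, norm_mul, Complex.norm_I, ee_norm, one_mul, one_mul]
        exact hb1 n (n - 1) (ee y) (ee_norm y).le
      · exact hsum0 (ee 0) (ee_norm 0).le
    rw [tsum_mul_left] at h1
    exact h1
  · intro φ
    have h1 := (hsum0 (ee φ) (ee_norm φ).le).hasSum
    have h2 := Complex.reCLM.hasSum h1
    have h3 : (fun n : ℕ => a n * Real.cos (n * φ)) =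
        (fun b : ℕ => Complex.reCLM (((a b : ℝ) : ℂ) * ee φ ^ b)) := by
      funext n
      rw [Complex.reCLM_apply, Complex.re_ofReal_mul, ee_pow, ee_re]
    rw [h3]
    exact h2

end Run7.h382.LP
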